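import Mathlib

/-!
# pcf of intervals of regular cardinals
-/

set_option autoImplicit false

open Cardinal Ordinal Set Order Filter

universe u

namespace Pool.Agent.H7.PCF

/-- The cofinality of the ultraproduct, modulo `D`, of the cardinals `κ` (as ordinals): the least
cardinality of a set `F` of functions which are modulo `D` in the product, such that each function
which is modulo `D` in the product is bounded modulo `D` by a member of `F`. -/
noncomputable def cofD (D : Ultrafilter Cardinal.{u}) : Cardinal.{u + 1} :=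
  sInf {c | ∃ F : Set (Cardinal.{u} → Ordinal.{u}), #F = c ∧
    (∀ f ∈ F, ∀ᶠ κ in (D : Filter Cardinal.{u}), f κ < κ.ord) ∧
    ∀ g : Cardinal.{u} → Ordinal.{u}, (∀ᶠ κ in (D : Filter Cardinal.{u}), g κ < κ.ord) →
      ∃ f ∈ F, ∀ᶠ κ in (D : Filter Cardinal.{u}), g κ ≤ f κ}

/-- `pcf a`: the cofinalities of the ultraproducts of `a`; the ultrafilters on `a` are the
ultrafilters on the class of all cardinals which contain `a`. -/
def pcf (a : Set Cardinal.{u}) : Set Cardinal.{u} :=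
  {l | ∃ D : Ultrafilter Cardinal.{u}, a ∈ D ∧ cofD D = Cardinal.lift.{u + 1} l}

/-- The set `a_α` of the regular cardinals `κ` with `|α|⁺ ≤ κ < ℵ_α`. -/
def aa (α : Ordinal.{u}) : Set Cardinal.{u} := {κ | κ.IsRegular ∧ succ α.card ≤ κ ∧ κ < ℵ_ α}

/-- The cofinalities of the ultraproducts of `a_α` for the ultrafilters which contain all end
segments of `a_α`. -/
def pcfTop (α : Ordinal.{u}) : Set Cardinal.{u} :=
  {l | ∃ D : Ultrafilter Cardinal.{u}, aa α ∈ D ∧ (∀ κ < ℵ_ α, Ioi κ ∈ D) ∧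
    cofD D = Cardinal.lift.{u + 1} l}

lemma pcfTop_subset (α : Ordinal.{u}) : pcfTop α ⊆ pcf (aa α) := by
  rintro l ⟨D, h1, -, h3⟩
  exact ⟨D, h1, h3⟩

/-- Counting the members of `a_α` above `ℵ_γ`. -/
lemma card_le_aa {α γ : Ordinal.{u}} (hα : IsSuccLimit α) (h : ℵ_ γ ∈ aa α) :
    Cardinal.lift.{u + 1} (α - γ).card ≤ #(aa α) := by
  have hγ : γ < α := aleph_lt_aleph.1 h.2.2
  rw [← Cardinal.mk_Iio_ordinal]
  refine mk_le_of_injective (f := fun ζ : Iio (α - γ) => (⟨ℵ_ (γ + ζ.1 + 1), ?_, ?_, ?_⟩ : aa α)) ?_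
  · exact isRegular_aleph_add_one _
  · refine h.2.1.trans (aleph_le_aleph.2 ?_)
    have e1 : γ ≤ γ + ζ.1 := by simp
    exact e1.trans (lt_add_one _).le
  · rw [aleph_lt_aleph]
    have h1 : γ + ζ.1 < α := by
      have := (add_lt_add_iff_left γ).2 ζ.2
      rwa [Ordinal.add_sub_cancel_of_le hγ.le] at this
    exact hα.succ_lt h1
  · intro x y hxy
    have h1 : ℵ_ (γ + x.1 + 1) = ℵ_ (γ + y.1 + 1) := congrArg Subtype.val hxy
    have h2 : γ + x.1 + 1 = γ + y.1 + 1 :=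
      le_antisymm (aleph_le_aleph.1 h1.le) (aleph_le_aleph.1 h1.ge)
    have h3 : γ + x.1 = γ + y.1 := Order.succ_injective (by simpa using h2)
    exact Subtype.ext ((add_right_inj γ).1 h3)

lemma aleph0_le_aa {α γ : Ordinal.{u}} (hα : IsSuccLimit α) (h : ℵ_ γ ∈ aa α) :
    ℵ₀ ≤ #(aa α) := by
  have hγ : γ < α := aleph_lt_aleph.1 h.2.2
  refine le_trans ?_ (card_le_aa hα h)
  rw [aleph0_le_lift, aleph0_le_card]
  exact omega0_le_of_isSuccLimit (isSuccLimit_sub hα.isSuccPrelimit hγ)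

lemma card_mono {α δ γ : Ordinal.{u}} (hα : IsSuccLimit α) (h : ℵ_ γ ∈ aa α) (hγ : γ < δ)
    (hδ : δ ≤ α) : #(aa δ) ≤ #(aa α) := by
  rcases eq_or_lt_of_le (card_le_card hδ) with h1 | h1
  · refine mk_le_mk_of_subset fun κ hκ => ⟨hκ.1, ?_, hκ.2.2.trans_le (aleph_le_aleph.2 hδ)⟩
    rw [← h1]; exact hκ.2.1
  · have h2 : #(aa δ) ≤ Cardinal.lift.{u + 1} δ.card := by
      rw [← Cardinal.mk_Iio_ordinal]
      refine (mk_le_mk_of_subset ?_).trans (mk_image_le (f := aleph) (s := Iio δ))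
      intro κ hκ
      obtain ⟨ε, rfl⟩ := mem_range_aleph_iff.2 hκ.1.aleph0_le
      exact ⟨ε, aleph_lt_aleph.1 hκ.2.2, rfl⟩
    have h3 : α.card = (α - γ).card := by
      refine le_antisymm ?_ (card_le_card (Ordinal.sub_le_self α γ))
      by_contra hn
      rw [not_le] at hn
      have h4 : α.card = γ.card + (α - γ).card := by
        rw [← card_add, Ordinal.add_sub_cancel_of_le (hγ.le.trans hδ)]
      have h5 : γ.card < α.card := (card_le_card hγ.le).trans_lt h1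
      have h6 : ℵ₀ ≤ α.card := aleph0_le_card.2 (omega0_le_of_isSuccLimit hα)
      exact absurd (add_lt_of_lt h6 h5 hn) (by rw [← h4]; exact lt_irrefl _)
    refine h2.trans (le_trans ?_ (card_le_aa hα h))
    rw [Cardinal.lift_le, ← h3]
    exact h1.le

theorem exists_top {α : Ordinal.{u}} (hα : IsSuccLimit α) (h : #(aa α) < #(pcf (aa α))) :
    ∃ δ ≤ α, IsSuccLimit δ ∧ #(aa δ) ≤ #(aa α) ∧ #(aa α) < #(pcfTop δ) := by
  by_contra hcon
  push Not at hcon
  refine absurd h (not_lt.2 ?_)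
  rcases (aa α).eq_empty_or_nonempty with he | ⟨κ₀, hκ₀⟩
  · have : pcf (aa α) = ∅ := by
      rw [he]
      refine eq_empty_of_forall_notMem ?_
      rintro l ⟨D, h1, -⟩
      exact D.empty_notMem h1
    rw [this]; simp
  obtain ⟨γ₀, rfl⟩ := mem_range_aleph_iff.2 hκ₀.1.aleph0_le
  have hinf : ℵ₀ ≤ #(aa α) := aleph0_le_aa hα hκ₀
  let P1 : Set Cardinal.{u} :=
    {l | ∃ κ : aa α, cofD (pure κ.1 : Ultrafilter Cardinal.{u}) = Cardinal.lift.{u + 1} l}
  let B : aa α → Set Cardinal.{u} := fun κ =>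
    {l | ∃ δ : Ordinal.{u}, ℵ_ (δ + 1) = κ.1 ∧ IsSuccLimit δ ∧ δ ≤ α ∧ #(aa δ) ≤ #(aa α) ∧
      l ∈ pcfTop δ}
  have hP1 : #P1 ≤ #(aa α) := by
    choose f hf using fun l : P1 => l.2
    refine mk_le_of_injective (f := f) ?_
    intro x y hxy
    have := (hf x).symm.trans ((congrArg (fun κ : aa α =>
      cofD (pure κ.1 : Ultrafilter Cardinal.{u})) hxy).trans (hf y))
    exact Subtype.ext (lift_injective this)
  have hB : ∀ κ, #(B κ) ≤ #(aa α) := by
    intro κ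
    by_cases hκ : ∃ δ : Ordinal.{u}, ℵ_ (δ + 1) = κ.1 ∧ IsSuccLimit δ ∧ δ ≤ α ∧
        #(aa δ) ≤ #(aa α)
    · obtain ⟨δ, d1, d2, d3, d4⟩ := hκ
      refine (mk_le_mk_of_subset ?_).trans (hcon δ d3 d2 d4)
      rintro l ⟨δ', e1, -, -, -, e5⟩
      have h1 : δ' + 1 = δ + 1 :=
        le_antisymm (aleph_le_aleph.1 (e1.trans d1.symm).le)
          (aleph_le_aleph.1 (e1.trans d1.symm).ge)
      have h2 : δ' = δ := Order.succ_injective (by simpa using h1)
      rw [← h2]; exact e5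
    · have : B κ = ∅ := by
        refine eq_empty_of_forall_notMem ?_
        rintro l ⟨δ, e1, e2, e3, e4, -⟩
        exact hκ ⟨δ, e1, e2, e3, e4⟩
      rw [this]; simp
  have hsub : pcf (aa α) ⊆ P1 ∪ pcfTop α ∪ ⋃ κ, B κ := by
    rintro l ⟨D, hD, hl⟩
    let S : Set Ordinal.{u} := {ε | Iio (ℵ_ ε) ∈ D}
    have hS : α ∈ S := D.mem_of_superset hD fun κ hκ => hκ.2.2
    have h1 : Iio (ℵ_ (sInf S)) ∈ D := csInf_mem (⟨α, hS⟩ : S.Nonempty)
    have h2 : sInf S ≤ α := csInf_le' hS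
    have h3 : ∀ ε < sInf S, Ici (ℵ_ ε) ∈ D := by
      intro ε hε
      have : Iio (ℵ_ ε) ∉ D := fun hh => absurd (csInf_le' (show ε ∈ S from hh)) (not_le.2 hε)
      rw [← Ultrafilter.compl_mem_iff_notMem, compl_Iio] at this
      exact this
    obtain ⟨κ₁, k1, k2⟩ := D.nonempty_of_mem (D.inter_mem hD h1)
    obtain ⟨γ₁, rfl⟩ := mem_range_aleph_iff.2 k1.1.aleph0_le
    have hγ₁ : γ₁ < sInf S := aleph_lt_aleph.1 k2
    rcases zero_or_succ_or_isSuccLimit (sInf S) with h4 | ⟨ε, h4⟩ | h4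
    · rw [h4] at hγ₁
      exact absurd hγ₁ (not_lt.2 bot_le)
    · left; left
      have h5 : aa α ∩ {ℵ_ ε} ∈ D := by
        refine D.mem_of_superset (D.inter_mem (D.inter_mem hD h1) (h3 ε ?_)) ?_
        · rw [← h4]; exact lt_succ ε
        · rintro κ ⟨⟨c1, c2⟩, c3⟩
          refine ⟨c1, le_antisymm ?_ c3⟩
          rw [← h4, mem_Iio, succ_eq_add_one, ← succ_aleph] at c2
          exact lt_succ_iff.1 c2
      obtain ⟨κ, hκ, hDκ⟩ := Ultrafilter.eq_pure_of_finite_mem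
        ((Set.finite_singleton (ℵ_ ε)).inter_of_right (aa α)) h5
      exact ⟨⟨κ, hκ.1⟩, by rw [← hDκ]; exact hl⟩
    · have h6 : l ∈ pcfTop (sInf S) := by
        refine ⟨D, D.mem_of_superset (D.inter_mem hD h1) ?_, ?_, hl⟩
        · rintro κ ⟨c1, c2⟩
          exact ⟨c1.1, (succ_le_succ (card_le_card h2)).trans c1.2.1, c2⟩
        · intro κ hκ
          rcases lt_or_ge κ ℵ₀ with h7 | h7
          · refine D.mem_of_superset hD fun κ' hκ' => h7.trans_le hκ'.1.aleph0_le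
          · obtain ⟨ε, rfl⟩ := mem_range_aleph_iff.2 h7
            have h8 : ε + 1 < sInf S := h4.succ_lt (aleph_lt_aleph.1 hκ)
            refine D.mem_of_superset (h3 _ h8) fun κ' hκ' => ?_
            exact (aleph_lt_aleph.2 (lt_add_one ε)).trans_le hκ'
      rcases eq_or_lt_of_le h2 with h7 | h7
      · left; right
        rw [← h7]; exact h6
      · right
        rw [mem_iUnion]
        refine ⟨⟨ℵ_ (sInf S + 1), isRegular_aleph_add_one _, ?_, ?_⟩, sInf S, rfl, h4, h2,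
          card_mono hα k1 hγ₁ h2, h6⟩
        · exact k1.2.1.trans (aleph_le_aleph.2 (hγ₁.le.trans (lt_add_one _).le))
        · exact aleph_lt_aleph.2 (hα.succ_lt h7)
  calc #(pcf (aa α)) ≤ #(P1 ∪ pcfTop α ∪ ⋃ κ, B κ : Set Cardinal.{u}) := mk_le_mk_of_subset hsub
    _ ≤ #(P1 ∪ pcfTop α : Set Cardinal.{u}) + #(⋃ κ, B κ) := mk_union_le _ _
    _ ≤ (#P1 + #(pcfTop α)) + #(⋃ κ, B κ) := by
        gcongr; exact mk_union_le _ _
    _ ≤ (#(aa α) + #(aa α)) + #(aa α) := by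
        refine add_le_add (add_le_add hP1 (hcon α le_rfl hα le_rfl)) ?_
        calc #(⋃ κ, B κ) ≤ Cardinal.sum (fun κ => #(B κ)) := mk_iUnion_le_sum_mk
          _ ≤ Cardinal.sum (fun _ : aa α => #(aa α)) := sum_le_sum _ _ hB
          _ = #(aa α) * #(aa α) := by rw [sum_const']
          _ = #(aa α) := mul_eq_self hinf
    _ = #(aa α) := by rw [add_eq_self hinf, add_eq_self hinf]

end Pool.Agent.H7.PCF
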