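import Mathlib
import Pool.Agent.H7.PCF.Top

/-!
# Bounds for cofinalities of ultraproducts
-/

set_option autoImplicit false

open Cardinal Ordinal Set Order Filter

universe u

namespace Pool.Agent.H7.PCF

/-- the full product gives an upper bound -/
lemma cofD_le {δ : Ordinal.{u}} (D : Ultrafilter Cardinal.{u}) (hD : aa δ ∈ D) :
    cofD D ≤ Cardinal.lift.{u + 1} (ℵ_ δ) ^ #(aa δ) := by
  classical
  let F : Set (Cardinal.{u} → Ordinal.{u}) :=
    {f | (∀ κ ∈ aa δ, f κ < κ.ord) ∧ ∀ κ, κ ∉ aa δ → f κ = 0}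
  have h1 : cofD D ≤ #F := by
    unfold cofD
    refine csInf_le' ⟨F, rfl, ?_, ?_⟩
    · intro f hf
      filter_upwards [hD] with κ hκ using hf.1 κ hκ
    · intro g hg
      refine ⟨fun κ => if κ ∈ aa δ ∧ g κ < κ.ord then g κ else 0, ⟨?_, ?_⟩, ?_⟩
      · intro κ hκ
        by_cases h : g κ < κ.ord
        · simp only [hκ, h, and_self, if_true]
        · simp only [h, and_false, if_false]
          exact hκ.1.ord_pos
      · intro κ hκ
        simp only [hκ, false_and, if_false]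
      · filter_upwards [hD, hg] with κ hκ hκ'
        simp only [hκ, hκ', and_self, if_true, le_refl]
  refine h1.trans ?_
  have h2 : Cardinal.lift.{u + 1} (ℵ_ δ) ^ #(aa δ) = #(aa δ → Iio (ω_ δ)) := by
    rw [← Cardinal.power_def, Cardinal.mk_Iio_ordinal, card_omega]
  rw [h2]
  refine mk_le_of_injective (f := fun (f : F) (κ : aa δ) => (⟨f.1 κ.1, ?_⟩ : Iio (ω_ δ))) ?_
  · have h3 := f.2.1 κ.1 κ.2
    have h4 : κ.1.ord ≤ ω_ δ := by rw [← ord_aleph]; exact ord_le_ord.2 κ.2.2.2.le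
    exact h3.trans_le h4
  · intro f g hfg
    refine Subtype.ext (funext fun κ => ?_)
    by_cases h : κ ∈ aa δ
    · exact congrArg Subtype.val (congrFun hfg ⟨κ, h⟩)
    · rw [f.2.2 κ h, g.2.2 κ h]

lemma le_cofD {δ : Ordinal.{u}} (D : Ultrafilter Cardinal.{u}) (hD : aa δ ∈ D)
    (ht : ∀ κ < ℵ_ δ, Ioi κ ∈ D) {l : Cardinal.{u}} (hl : cofD D = Cardinal.lift.{u + 1} l) :
    ℵ_ δ ≤ l := by
  by_contra hn
  rw [not_le] at hn
  have hne : {c | ∃ F : Set (Cardinal.{u} → Ordinal.{u}), #F = c ∧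
    (∀ f ∈ F, ∀ᶠ κ in (D : Filter Cardinal.{u}), f κ < κ.ord) ∧
    ∀ g : Cardinal.{u} → Ordinal.{u}, (∀ᶠ κ in (D : Filter Cardinal.{u}), g κ < κ.ord) →
      ∃ f ∈ F, ∀ᶠ κ in (D : Filter Cardinal.{u}), g κ ≤ f κ}.Nonempty :=
    ⟨_, {f | ∀ᶠ κ in (D : Filter Cardinal.{u}), f κ < κ.ord}, rfl, fun f hf => hf,
      fun g hg => ⟨g, hg, Filter.Eventually.of_forall fun _ => le_rfl⟩⟩
  obtain ⟨F, hF1, hF2, hF3⟩ := csInf_mem hne
  have hF : #F = Cardinal.lift.{u + 1} #(l.out) := by rw [hF1, mk_out]; exact hl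
  obtain ⟨e⟩ : Nonempty (l.out ≃ F) := by
    rw [← Cardinal.lift_mk_eq'.{u, u + 1}] 
    rw [hF]
    simp
  let g : Cardinal.{u} → Ordinal.{u} := fun κ =>
    ⨆ i : l.out, (if (e i).1 κ < κ.ord then (e i).1 κ + 1 else 0)
  have hg : ∀ᶠ κ in (D : Filter Cardinal.{u}), g κ < κ.ord := by
    filter_upwards [hD, ht l hn] with κ hκ hκ'
    refine iSup_lt_ord_of_isRegular hκ.1 (by rw [mk_out]; exact hκ') fun i => ?_
    split_ifs with h
    · exact (isSuccLimit_ord hκ.1.aleph0_le).succ_lt h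
    · exact hκ.1.ord_pos
  obtain ⟨f, hf, hgf⟩ := hF3 g hg
  have := (hF2 f hf).and hgf
  obtain ⟨κ, h1, h2⟩ := this.exists
  have h3 : (e (e.symm ⟨f, hf⟩)).1 = f := by rw [e.apply_symm_apply]
  have h4 : f κ + 1 ≤ g κ := by
    refine le_trans ?_ (le_ciSup (Ordinal.bddAbove_of_small) (e.symm ⟨f, hf⟩))
    rw [h3, if_pos h1]
  exact absurd (h4.trans h2) (not_le.2 (lt_add_one _))

theorem pcfTop_sub (δ : Ordinal.{u}) : pcfTop δ ⊆ {l : Cardinal.{u} | ℵ_ δ ≤ l ∧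
    Cardinal.lift.{u + 1} l ≤ Cardinal.lift.{u + 1} (ℵ_ δ) ^ #(aa δ)} := by
  rintro l ⟨D, h1, h2, h3⟩
  exact ⟨le_cofD D h1 h2 h3, by rw [← h3]; exact cofD_le D h1⟩

end Pool.Agent.H7.PCF
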